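import Pool.Agent.ZGO.StmtsA

set_option autoImplicit false

namespace Pool.Agent.ZGO.H52

theorem zgn (lvl : LvlStmt) (shi : ShiStmt) (sev : SevStmt) (bmn : BmnStmt) : ZgnStmt := by
  intro G _ _ htor ψ hinj hfin
  by_contra hne
  have h2 : 2 ≤ ψ.range.index := by
    have h0 : ψ.range.index ≠ 0 := hfin.index_ne_zero
    have h1 : ψ.range.index ≠ 1 := fun h => hne (Subgroup.index_eq_one.mp h)
    omega
  obtain ⟨P, ψ', N, A, B, hP, _, hLev⟩ := lvl G ψ hinj h2
  have hPfg : Group.FG P := inferInstance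
  have hPtor : ∀ g : P, IsOfFinOrder g := by
    intro g
    have h3 := htor (g : G)
    exact Submonoid.isOfFinOrder_coe.mp h3
  obtain ⟨θ, ρ, _, hρ, hShift⟩ := shi P ψ.range.index ψ' N A B hLev
  obtain ⟨H, Z, hH, hZ, hfix⟩ := bmn P ψ' (Xs A B) θ ρ hPtor hShift
  have hsev := sev P ψ.range.index ψ' N A B hLev hPtor H hH
  apply hZ
  have hinj2 : Set.InjOn (fun f : Xs A B => (f : P → QZ)) (Z : Set (Xs A B)) :=
    fun a _ b _ hab => Subtype.ext hab
  refine Set.Finite.of_finite_image (hsev.subset ?_) hinj2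
  rintro _ ⟨z, hz, rfl⟩
  refine ⟨z.2, ?_⟩
  intro h hh x
  have h4 := hfix h⁻¹ (H.inv_mem hh) z hz
  have h5 := hρ h⁻¹ z x
  rw [h4, inv_inv] at h5
  change (z : P → QZ) (h * x) = (z : P → QZ) h + (z : P → QZ) x
  rw [h5]
  abel

end Pool.Agent.ZGO.H52
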